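import Pool.Agent.H63.SEP.Stmts2

/-!
Project SEP, modules GEC (encoding) and GDC (decoding).
-/

set_option linter.unusedVariables false
set_option synthInstance.maxSize 100000

namespace SW.SEP

open SW

/-- GEC -/
theorem sep_gec (h2 : GB2Stmt) (h4 : GB4Stmt) (hv : GVLStmt) (hS : SQFStmt) : GECStmt := by
  intro M _ _ _ I B r q τ i t G hI hG he hq _
  have f := hS (Ext (PF I) G)
  obtain ⟨hF, hval⟩ := (h2 M I B r q τ i t G hI hG he).2 hq
  refine ⟨Br (gg I G) (emb _ G (cod B r q τ i t)), hF, ?_,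
    h4 M I (cod B r q τ i t) G hI hG he hF⟩
  have hx := hv M I B r q τ i t G hI hG he hq
  intro n a hna
  obtain ⟨hn, ha, -⟩ := f.fapp' hx hna
  obtain ⟨hu, -⟩ := f.fapp hF hn
  obtain ⟨a0, c', c, hc1, hc, hc', h0, h1⟩ := hval n _ hu
  have : a0 = a := hx.2.2 n a0 a h0 hna
  subst this
  rw [hc1] at hu
  exact ⟨c', c, hc', hc, hu, h1⟩

theorem nonc_inj {M : Type} [SetStr M] [ZF M] {c c' : M} (h : nonc c = nonc c') : c = c' := by
  unfold nonc at h
  rw [opair_inj] at h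
  exact h.2

theorem cdv_inj {M : Type} [SetStr M] [ZF M] {a b i c a' b' i' c' : M}
    (h : cdv a b i c = cdv a' b' i' c') : a = a' ∧ b = b' ∧ i = i' ∧ c = c' := by
  unfold cdv at h
  rw [opair_inj, opair_inj, opair_inj, opair_inj] at h
  exact h.2

/-- GDC -/
theorem sep_gdc (hA : ATMStmt) (hS : SQFStmt) (h1 : GB1Stmt) (h2 : GB2Stmt) (h5 : GB5Stmt)
    (hv : GVLStmt) (hR : RIGStmt) : GDCStmt := by
  intro M _ _ _ I r i G hI hG hr hNr hi _ x hx hD
  have f := hS (Ext (PF I) G)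
  have fa := hA M
  have fe := hA (Ext (PF I) G)
  obtain ⟨u, hu, hval, hP⟩ := hD
  obtain ⟨e, he, rfl⟩ := hR M I G hI hG u hu hP
  have hex : ∀ n, E n om → ∃ a, E (opair n a) x := hx.2.1
  obtain ⟨a0, ha0⟩ := hex emp emp_mem_om
  obtain ⟨c', c, hc', hc, hcu, hcr⟩ := hval emp a0 ha0
  rcases (fa.sye hI he).2.1 with hNe | ⟨B, r', q, τ, i', t, rfl⟩
  · exfalso
    obtain ⟨d, hd, hd'⟩ := (h1 M I e G hI hG he hNe).2 _ _ hcu
    unfold cdv nonc at hd'
    rw [opair_inj] at hd'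
    exact fe.ne01 hd'.1.symm
  · have hq : G q := (h2 M I B r' q τ i' t G hI hG he).1 _ hcu
    obtain ⟨-, hval2⟩ := (h2 M I B r' q τ i' t G hI hG he).2 hq
    have hxv := hv M I B r' q τ i' t G hI hG he hq
    obtain ⟨-, -, hBI, -, hr'B, hNr', -⟩ := fa.sycd hI he
    have hr' : E r' I := hBI _ hr'B
    obtain ⟨hF1, -⟩ := h1 M I r G hI hG hr hNr
    obtain ⟨hF2, -⟩ := h1 M I r' G hI hG hr' hNr'
    -- the sides
    obtain ⟨b0, d', d, hcd, -, -, -, -⟩ := hval2 _ _ hcu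
    have hii : i = i' := ((embF hG).inj i i').1 (cdv_inj hcd).2.2.1
    subst hii
    -- the points
    have hxx : x = mk (PF I) G (vl τ) := by
      refine f.fext hx hxv ?_
      intro n a hna
      obtain ⟨c1', c1, -, -, hcu1, -⟩ := hval n a hna
      obtain ⟨b1, d1', d1, hcd1, -, -, hb1, -⟩ := hval2 _ _ hcu1
      rw [(cdv_inj hcd1).1]
      exact hb1
    -- the rules
    have hrr : Br (gg I G) (emb _ G r) = Br (gg I G) (emb _ G r') := by
      refine f.fext hF1 hF2 ?_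
      intro n y hny
      obtain ⟨hn, -, -⟩ := f.fapp' hF1 hny
      obtain ⟨a, hna⟩ := hex n hn
      obtain ⟨c1', c1, -, -, hcu1, hb⟩ := hval n a hna
      obtain ⟨b1, d1', d1, hcd1, -, -, -, hb1⟩ := hval2 _ _ hcu1
      have h3 : y = nonc c1' := hF1.2.2 n _ _ hny hb
      rw [h3, (cdv_inj hcd1).2.1]
      exact hb1
    have hr0 : r = r' := by
      by_contra hne
      exact h5 M I r r' G hI hG hr hr' hNr hNr' hne hrr
    subst hr0
    exact ⟨B, q, τ, t, he, hq, hxx⟩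

end SW.SEP
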