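import Pool.Agent.H63.SEP.Stmts

/-!
Project SEP, module HBF: facts about transitive sets closed under countable subsets.
-/

set_option linter.unusedVariables false
set_option synthInstance.maxSize 100000

namespace SW.SEP

open SW

section
variable {M : Type} [SetStr M] [ZFC M] {H : M}

theorem hb_fnt (hA : CBAStmt) (hH : Hb H) {a : M} (h : Sub a H) (hf : Fnt a) : E a H :=
  hH.2 a h ((hA M).fin hf)

theorem hb_emp (hA : CBAStmt) (hH : Hb H) : E emp H :=
  hb_fnt hA hH (fun z hz => absurd hz (not_mem_emp z)) finF.emp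

theorem hb_ins (hA : CBAStmt) (hH : Hb H) {a x : M} (hx : Fnt x) (hxH : Sub x H) (ha : E a H) :
    E (ins a x) H := by
  refine hb_fnt hA hH ?_ (finF.ins hx)
  intro z hz
  rcases mem_ins.1 hz with hz | rfl
  · exact hxH z hz
  · exact ha

theorem hb_upair (hA : CBAStmt) (hH : Hb H) {a b : M} (ha : E a H) (hb : E b H) :
    E (upair a b) H := by
  have h1 : upair a b = ins b (ins a emp) := SW.ext fun z => by
    rw [mem_upair, mem_ins, mem_ins]
    simp
  rw [h1]
  refine hb_ins hA hH (finF.ins finF.emp) ?_ hb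
  intro z hz
  rcases mem_ins.1 hz with hz | rfl
  · exact absurd hz (not_mem_emp z)
  · exact ha

theorem hb_opair (hA : CBAStmt) (hH : Hb H) {a b : M} (ha : E a H) (hb : E b H) :
    E (opair a b) H := by
  unfold opair sing
  exact hb_upair hA hH (hb_upair hA hH ha ha) (hb_upair hA hH ha hb)

theorem hb_fst (hH : Hb H) {a b : M} (h : E (opair a b) H) : E a H ∧ E b H := by
  have h1 : E (upair a b) H := by
    refine hH.1 _ h _ ?_
    unfold opair
    rw [mem_upair]
    exact Or.inr rfl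
  exact ⟨hH.1 _ h1 a (mem_upair.2 (Or.inl rfl)), hH.1 _ h1 b (mem_upair.2 (Or.inr rfl))⟩

theorem hb_one (hA : CBAStmt) (hH : Hb H) : E one H := by
  unfold one sing
  exact hb_upair hA hH (hb_emp hA hH) (hb_emp hA hH)

theorem hb_two (hA : CBAStmt) (hH : Hb H) : E two H := by
  unfold two
  exact hb_upair hA hH (hb_emp hA hH) (hb_one hA hH)

theorem hb_oms (hA : CBAStmt) (hH : Hb H) : Sub om H := by
  refine om_ind (C := fun n : M => E n H) inferInstance (hb_emp hA hH) ?_
  intro n hn h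
  unfold suc
  exact hb_ins hA hH (finF.nat hn) (hH.1 n h) h

theorem hb_prod (hA : CBAStmt) (hH : Hb H) {x y : M} (hx : Sub x H) (hy : Sub y H) :
    Sub (prod x y) H := by
  intro z hz
  obtain ⟨a, b, ha, hb, rfl⟩ := mem_prod'.1 hz
  exact hb_opair hA hH (hx a ha) (hy b hb)

theorem hb_sing {x : M} (hx : E x H) : Sub (sing x) H := by
  intro z hz
  rw [mem_sing] at hz
  rw [hz]
  exact hx

theorem hb_bun {x y : M} (hx : Sub x H) (hy : Sub y H) : Sub (bun x y) H := by
  intro z hz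
  exact (mem_bun.1 hz).elim (hx z) (hy z)

theorem hb_SQ (hS : SQFStmt) (hA : CBAStmt) (hH : Hb H) {A : M} (h : Sub A H) :
    Sub (SQ A) H := by
  intro v hv
  obtain ⟨n, hn, hF⟩ := mem_SQ.1 hv
  have hnH : Sub n H := fun z hz => hb_oms hA hH z (Trans_om n hn z hz)
  refine hb_fnt hA hH ?_ ?_
  · intro z hz
    obtain ⟨x, y, hx, hy, rfl⟩ := hF.1 z hz
    exact hb_opair hA hH (hnH x hx) (h y hy)
  · have h1 : v = img n (fun x => opair x (app v x)) := SW.ext fun z => by
      rw [mem_img' inferInstance]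
      constructor
      · intro hz
        obtain ⟨x, y, hx, hy, rfl⟩ := hF.1 z hz
        exact ⟨x, hx, by rw [((hS M).fapp' hF hz).2.2]⟩
      · rintro ⟨x, hx, rfl⟩
        exact ((hS M).fapp hF hx).1
    rw [h1]
    exact finF.img _ inferInstance (finF.nat hn)

theorem hb_BS (hA : CBAStmt) (hC : CTSStmt) (hH : Hb H) : Sub BS H := by
  intro v hv
  have hF := mem_BS.1 hv
  have hs : Sub v (prod om om) := by
    intro z hz
    obtain ⟨x, y, hx, hy, rfl⟩ := hF.1 z hz
    exact mem_prod.2 ⟨hx, hy⟩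
  refine hH.2 v ?_ ((hA M).sub (hC M).2.2.2.2.2 hs)
  intro z hz
  exact hb_prod hA hH (hb_oms hA hH) (hb_oms hA hH) z (hs z hz)

theorem hb_LL (hA : CBAStmt) (hH : Hb H) : Sub LL H := by
  unfold LL
  have h0 := hb_oms hA hH
  exact hb_bun (hb_prod hA hH (hb_sing (hb_emp hA hH)) h0)
    (hb_prod hA hH (hb_sing (hb_one hA hH)) (hb_prod hA hH h0 (hb_prod hA hH h0
      (hb_prod hA hH (hH.1 _ (hb_two hA hH)) h0))))

theorem hb_NDS (hS : SQFStmt) (hA : CBAStmt) (hH : Hb H) : Sub NDS H := by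
  unfold NDS
  exact hb_SQ hS hA hH (hb_LL hA hH)

theorem hb_WW (hS : SQFStmt) (hA : CBAStmt) (hC : CTSStmt) (hH : Hb H) : Sub WW H := by
  unfold WW
  have h0 := hb_oms hA hH
  have hN := hb_NDS hS hA hH
  have h2 : Sub two H := hH.1 _ (hb_two hA hH)
  exact hb_bun (hb_prod hA hH (hb_sing (hb_two hA hH)) (hb_prod hA hH hN
      (hb_prod hA hH (hb_SQ hS hA hH h0) h2)))
    (hb_bun (hb_prod hA hH (hb_sing (hb_emp hA hH)) hN)
      (hb_prod hA hH (hb_sing (hb_one hA hH)) (hb_prod hA hH (hb_BS hA hC hH) h0)))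

theorem hb_PS (hS : SQFStmt) (hA : CBAStmt) (hC : CTSStmt) (hH : Hb H) {I : M} (h : Sub I H) :
    Sub (PS I) H := by
  intro p hp
  have hp' := (mem_PS.1 hp).1
  refine hb_fnt hA hH ?_ hp'.1
  intro z hz
  refine hb_prod hA hH ?_ (hb_WW hS hA hC hH) z (shp_sub hp' z hz)
  intro y hy
  rcases mem_ins.1 hy with hy | rfl
  · exact h y hy
  · exact hb_emp hA hH

end

/-- HBF -/
theorem sep_hbf (hS : SQFStmt) (hA : CBAStmt) (hC : CTSStmt) : HBFStmt := by
  intro M _ _ H hH
  have h0 : Sub om H := hb_oms hA hH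
  have hSQ : ∀ {A : M}, Sub A H → Sub (SQ A) H := fun h => hb_SQ hS hA hH h
  exact
  { opair := fun ha hb => hb_opair hA hH ha hb
    fst := fun h => hb_fst hH h
    fnt := fun h hf => hb_fnt hA hH h hf
    emp := hb_emp hA hH
    one := hb_one hA hH
    two := hb_two hA hH
    om := ⟨hH.2 _ h0 (hA M).om, h0⟩
    SQ := fun h => hSQ h
    BS := hb_BS hA hC hH
    NDS := hb_NDS hS hA hH
    Q4 := by
      unfold SEP.Q4
      exact hb_prod hA hH (hSQ h0) (hb_prod hA hH (hSQ h0) (hb_prod hA hH (hSQ h0) (hSQ h0)))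
    PS := fun h => hb_PS hS hA hC hH h
    Nm := fun {J X τ} hJ hX h => by
      refine hH.2 τ ?_ h.1
      intro t ht
      obtain ⟨q, a, hq, ha, rfl⟩ := h.2 t ht
      exact hb_opair hA hH (hb_PS hS hA hC hH hJ q hq) (hX a ha)
    lbl := fun {B t} hB ht => by
      unfold SEP.lbl
      exact hb_opair hA hH (hb_two hA hH) (hb_opair hA hH hB ht)
    rul := fun {B T0 T1 t} hB h1 h2 ht => by
      unfold SEP.rul
      exact hb_opair hA hH (hb_emp hA hH) (hb_opair hA hH hB (hb_opair hA hH h1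
        (hb_opair hA hH h2 ht)))
    cod := fun {B r q x i t} hB hr hq hx hi ht => by
      unfold SEP.cod
      exact hb_opair hA hH (hb_one hA hH) (hb_opair hA hH hB (hb_opair hA hH hr
        (hb_opair hA hH hq (hb_opair hA hH hx (hb_opair hA hH hi ht))))) }

end SW.SEP
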