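import Pool.Agent.H63.SEP.Stmts2

/-!
Project SEP, module ISX: the embedding of extensions given by an isomorphism of systems.
-/

set_option linter.unusedVariables false
set_option synthInstance.maxSize 100000

namespace SW.SEP

open SW

/-- ISX -/
theorem sep_isx (hE : EMXStmt) (hO : ORXStmt) (hV : VLXStmt) (hC : CEIStmt) (hI : ISFStmt) :
    ISXStmt := by
  intro M _ _ g J K G hJ hK hg hG
  obtain ⟨g', hg', hc⟩ := hC M g J K hJ hK hg
  have hE' : Gen (PF J) (fun p => E p (PS J) ∧ G (act g p)) ∧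
      ∃ j : Ext (PF J) (fun p => E p (PS J) ∧ G (act g p)) → Ext (PF K) G, TEmb j ∧
        ∀ x, j (emb _ _ x) = emb _ _ x :=
    hE M (PF J) (PF K) (fun p => act g p) (fun p => act g' p) hc G hG
  obtain ⟨hGJ, j, hj, hje⟩ := hE'
  have fi := hI M g J K hJ hK hg
  refine ⟨hGJ, ?_⟩
  intro _ _
  refine ⟨j, hj, hje, ?_, ?_⟩
  · intro b hb
    obtain ⟨a, ha, rfl⟩ := hO M (PF K) G hG b hb
    exact ⟨emb _ _ a, (traF hGJ).ord a ha, (hje a).symm⟩
  · intro X τ hτ
    refine SW.ext fun z => ?_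
    rw [hV M K X (actn g τ) G (fi.nm hτ) K hG z]
    constructor
    · intro hz
      obtain ⟨y, rfl⟩ := hj.tr z _ hz
      rw [hj.mem] at hz
      obtain ⟨q, a, hqa, hq, rfl⟩ := (hV M J X τ _ hτ J hGJ y).1 hz
      refine ⟨act g q, a, ?_, hq.2, hje a⟩
      unfold actn
      rw [mem_img' inferInstance]
      exact ⟨opair q a, hqa, by rw [p1_opair, p2_opair]⟩
    · rintro ⟨q', a, hqa, hq', rfl⟩
      unfold actn at hqa
      rw [mem_img' inferInstance] at hqa
      obtain ⟨t, ht, he⟩ := hqa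
      obtain ⟨q, b, hq, hb, rfl⟩ := hτ.2 t ht
      rw [p1_opair, p2_opair, opair_inj] at he
      obtain ⟨rfl, rfl⟩ := he
      rw [← hje a, hj.mem]
      exact (hV M J X τ _ hτ J hGJ _).2 ⟨q, a, ht, ⟨hq, hq'⟩, rfl⟩

end SW.SEP
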